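import Pool.Agent.Lib.MP_a45045_al.Strong

namespace Pool.Agent.Results.MP_a45045_al.TwoGroup

open Pool.Agent.Lib.MP_a45045_al

theorem result : ∃ (G : Type) (_ : Group G) (H K : Subgroup G),
    Group.FG G ∧ IsPGroup 2 G ∧ H.Normal ∧ K.Normal ∧ H.index = 2 ∧ K.index = 2 ∧
    (∀ g : G, ∃ h ∈ H, ∃ k ∈ K, g = h * k) ∧
    (∀ x y : H, ∃ n : ℕ, (fun a : H => a⁻¹ * y⁻¹ * a * y)^[n] x = 1) ∧
    (∀ x y : K, ∃ n : ℕ, (fun a : K => a⁻¹ * y⁻¹ * a * y)^[n] x = 1) ∧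
    ∃ x g : G, ∀ n : ℕ, (fun a : G => a⁻¹ * g⁻¹ * a * g)^[n] x ≠ 1 := by
  obtain ⟨E, _, f, h, hn⟩ := exists_step
  obtain ⟨H, K, h1, h2, h3, h4, h5, h6, h7⟩ := two_halves h
  refine ⟨Wr (Wr E), inferInstance, H, K, fg_wr (fg_wr f), two_wr (two_wr (two_of_engel h)), h1,
    h2, h3, h4, h5, engel_sub h6, engel_sub h7, ?_⟩
  by_contra hc
  push Not at hc
  exact hn hc

end Pool.Agent.Results.MP_a45045_al.TwoGroup
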